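import Pool.Agent.Lib.MP_a4658c_nt.B9.Asm
import Pool.Agent.Lib.MP_a4658c_nt.B9.Ext

/-!
The exact set of integers with a large basin under the Kakutani 5x+1 map.

(1) If `5 ∤ a` and (`a` is odd, or `3 ∣ a`, or `a` is `-1, -2, -4, -8` mod 15), then at least
`c (X/a)^(9/10)` of the integers `1 ≤ n ≤ X` have `a` on their orbit, for all `X ≥ a`, with an
absolute constant `c > 0`. For `a = 1`: at least `c X^(9/10)` of the integers up to `X` reach 1.

(2) For all other `a ≥ 1` every `n` with `a` on its orbit is of the form `2^i 3^j a`.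

The Kakutani map is `fun m => if 2 ∣ m then m / 2 else if 3 ∣ m then m / 3 else 5 * m + 1`.
-/

theorem Pool.Agent.Results.MP_a4658c_nt.BasinExponent.result :
    (∃ c : ℝ, 0 < c ∧ ∀ a X : ℕ, ¬ 5 ∣ a →
      (¬ 2 ∣ a ∨ 3 ∣ a ∨ a % 15 = 7 ∨ a % 15 = 11 ∨ a % 15 = 13 ∨ a % 15 = 14) → a ≤ X →
      c * ((X : ℝ) / a) ^ (9 / 10 : ℝ) ≤
        ({n : ℕ | 1 ≤ n ∧ n ≤ X ∧ ∃ k : ℕ,
          (fun m : ℕ => if 2 ∣ m then m / 2 else if 3 ∣ m then m / 3 else 5 * m + 1)^[k] n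
            = a}.ncard : ℝ)) ∧
    ∀ a n : ℕ, (5 ∣ a ∨ (2 ∣ a ∧ (a % 15 = 1 ∨ a % 15 = 2 ∨ a % 15 = 4 ∨ a % 15 = 8))) →
      (∃ k : ℕ,
        (fun m : ℕ => if 2 ∣ m then m / 2 else if 3 ∣ m then m / 3 else 5 * m + 1)^[k] n = a) →
      ∃ i j : ℕ, n = 2 ^ i * 3 ^ j * a := by
  classical
  have hk : (fun m : ℕ => if 2 ∣ m then m / 2 else if 3 ∣ m then m / 3 else 5 * m + 1)
      = B9.kak := rfl
  rw [hk]
  constructor
  · obtain ⟨c, hc, h⟩ := B9.ext_of (B9.basin_all B9.good)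
    refine ⟨c, hc, fun a X ha5 ha haX => ?_⟩
    have e : {n : ℕ | 1 ≤ n ∧ n ≤ X ∧ ∃ k : ℕ, B9.kak^[k] n = a}
        = ((Finset.Icc 1 X).filter (fun n => ∃ k, B9.kak^[k] n = a) : Set ℕ) := by
      ext n
      simp only [Set.mem_setOf_eq, Finset.coe_filter, Finset.mem_Icc, and_assoc]
    rw [e, Set.ncard_coe_finset]
    have h6 := h a X (by omega) (by omega) haX
    unfold B9.Q at h6
    refine h6.trans (le_of_eq ?_)
    congr
  · intro a n h hn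
    obtain ⟨k, hk⟩ := hn
    exact B9.small_basin (by omega) k n hk
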