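import Pool.Agent.Lib.MP_a4658c_nt.ID.FinalEq

/-!
The sets of positive integers that are invariant under the Kakutani 5x+1 map from some point on
have a natural density and are equidistributed in the residue classes to the moduli
`2 ^ i * 3 ^ j * 5 ^ l`; the densities of disjoint invariant sets add up; the minimum of the orbit
of `n` has a limit law, without loss of mass.
-/

open Filter

namespace Pool.Agent.Results.MP_a4658c_nt.InvariantDensity

/-- The Kakutani map. -/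
def C (n : ℕ) : ℕ := if 2 ∣ n then n / 2 else if 3 ∣ n then n / 3 else 5 * n + 1

/-- The set `A` has natural density `d`: among the integers `1, ..., N` the proportion of those
in `A` tends to `d`. -/
def HasDensity (A : Set ℕ) (d : ℝ) : Prop :=
  Tendsto (fun N : ℕ => ({n : ℕ | 1 ≤ n ∧ n ≤ N ∧ n ∈ A}.ncard : ℝ) / N) atTop (nhds d)

theorem result :
    (∀ (A : Set ℕ) (n₀ : ℕ), (∀ n > n₀, (n ∈ A ↔ C n ∈ A)) → ∃ d : ℝ, HasDensity A d ∧
      ∀ i j l a : ℕ, a < 2 ^ i * 3 ^ j * 5 ^ l →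
        HasDensity {n : ℕ | n % (2 ^ i * 3 ^ j * 5 ^ l) = a ∧ n ∈ A}
          (d / (2 ^ i * 3 ^ j * 5 ^ l))) ∧
    (∀ (A : ℕ → Set ℕ) (d : ℕ → ℝ), (∀ i, ∀ n ≥ 1, (n ∈ A i ↔ C n ∈ A i)) →
      Pairwise (fun i j => Disjoint (A i) (A j)) → (∀ i, HasDensity (A i) (d i)) →
      Summable d ∧ HasDensity (⋃ i, A i) (∑' i, d i)) ∧
    (∃ (δ : ℕ → ℝ) (K c : ℝ), 0 < K ∧ 0 < c ∧
      (∀ m, HasDensity {n : ℕ | (∃ k : ℕ, C^[k] n = m) ∧ ∀ k : ℕ, m ≤ C^[k] n} (δ m)) ∧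
      HasSum δ 1 ∧
      ∀ X : ℕ, 1 ≤ X → 1 - ∑ m ∈ Finset.Icc 1 X, δ m ≤ K * (X : ℝ) ^ (-c)) := by
  classical
  have hk : C = K5.kak := rfl
  have hcard : ∀ (A : Set ℕ) (N : ℕ), ({n : ℕ | 1 ≤ n ∧ n ≤ N ∧ n ∈ A}.ncard : ℝ) =
      (((Finset.Icc 1 N).filter (fun n => n ∈ A)).card : ℝ) := by
    intro A N
    have h2 : {n : ℕ | 1 ≤ n ∧ n ≤ N ∧ n ∈ A}
        = ((Finset.Icc 1 N).filter (fun n => n ∈ A) : Set ℕ) := by
      ext n; simp [and_assoc]
    rw [h2, Set.ncard_coe_finset]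
  have hdens : ∀ (A : Set ℕ) (d : ℝ), HasDensity A d ↔ Tendsto (fun N : ℕ =>
      (((Finset.Icc 1 N).filter (fun n => n ∈ A)).card : ℝ) / N) atTop (nhds d) := by
    intro A d
    unfold HasDensity
    simp only [hcard]
  rw [hk]
  refine ⟨?_, ?_, ?_⟩
  · intro A n₀ hA
    obtain ⟨d, hd, -⟩ := K5.ID.density_exists A n₀ hA
    refine ⟨d, (hdens A d).2 (by convert hd), fun i j l a ha => (hdens _ _).2 ?_⟩
    have h1 := K5.ID.equidistribution A n₀ hA d (by convert hd) i j l a ha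
    convert h1
    exact Iff.rfl
  · intro A d hA hdis hd
    obtain ⟨h1, h2⟩ := K5.ID.additive A d hA hdis (fun i => by
      have := (hdens (A i) (d i)).1 (hd i)
      convert this)
    refine ⟨h1, (hdens _ _).2 ?_⟩
    convert h2 using 6
    simp
  · obtain ⟨δ, K, c, hK, hc, h1, h2, h3⟩ := K5.ID.min_law
    refine ⟨δ, K, c, hK, hc, fun m => ?_, h2, h3⟩
    exact (hdens (K5.ID.Amin m) (δ m)).2 (by convert h1 m)

end Pool.Agent.Results.MP_a4658c_nt.InvariantDensity
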