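import Pool.Agent.Lib.MP_a4658c_nt.K5.R6

/-!
Almost all orbits of the Kakutani 5x+1 map attain almost bounded values, in the sense of NATURAL
density and with a power saving: there are `C, c > 0` such that for all `X ≥ 1` and all `N` at most
`C X^(-c) N` of the integers `1 ≤ n ≤ N` have all their iterates larger than `X`. In particular for
every `f → ∞` the set of the `n` having an iterate `≤ f n` has natural density one.
-/

open Filter in
/-- The Kakutani map is `fun m => if 2 ∣ m then m / 2 else if 3 ∣ m then m / 3 else 5 * m + 1`. -/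
theorem Pool.Agent.Results.MP_a4658c_nt.NaturalDensity.result :
    (∃ C c : ℝ, 0 < C ∧ 0 < c ∧ ∀ X : ℝ, 1 ≤ X → ∀ N : ℕ,
      ({n : ℕ | 1 ≤ n ∧ n ≤ N ∧ ∀ k : ℕ,
        X < (((fun m : ℕ => if 2 ∣ m then m / 2 else if 3 ∣ m then m / 3 else 5 * m + 1)^[k] n : ℕ)
          : ℝ)}.ncard : ℝ) ≤ C * X ^ (-c) * N) ∧
    (∀ f : ℕ → ℝ, Tendsto f atTop atTop →
      Tendsto (fun N : ℕ => ({n : ℕ | 1 ≤ n ∧ n ≤ N ∧ ∃ k : ℕ,
        (((fun m : ℕ => if 2 ∣ m then m / 2 else if 3 ∣ m then m / 3 else 5 * m + 1)^[k] n : ℕ)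
          : ℝ) ≤ f n}.ncard : ℝ) / N) atTop (nhds 1)) := by
  classical
  have hk : (fun m : ℕ => if 2 ∣ m then m / 2 else if 3 ∣ m then m / 3 else 5 * m + 1)
      = K5.kak := rfl
  rw [hk]
  constructor
  · obtain ⟨C, c, hC, hc, h⟩ := K5.count_kak
    refine ⟨C, c, hC, hc, fun X hX N => ?_⟩
    have h1 := h X hX N
    have h2 : {n : ℕ | 1 ≤ n ∧ n ≤ N ∧ ∀ k : ℕ, X < ((K5.kak^[k] n : ℕ) : ℝ)}
        = ((Finset.Icc 1 N).filter (fun n => ∀ k : ℕ, X < (K5.kak^[k] n : ℝ)) : Set ℕ) := by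
      ext n; simp [and_assoc]
    rw [h2, Set.ncard_coe_finset]
    convert h1 using 4
  · intro f hf
    refine (K5.density_kak f hf).congr fun N => ?_
    have h2 : {n : ℕ | 1 ≤ n ∧ n ≤ N ∧ ∃ k : ℕ, ((K5.kak^[k] n : ℕ) : ℝ) ≤ f n}
        = ((Finset.Icc 1 N).filter (fun n => ∃ k : ℕ, (K5.kak^[k] n : ℝ) ≤ f n) : Set ℕ) := by
      ext n; simp [and_assoc]
    rw [h2, Set.ncard_coe_finset]
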