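import Pool.Agent.Lib.MP_a4658c_nt.ID.Final

/-!
A set of positive integers that is invariant under the Kakutani 5x+1 map from some point on has
either a positive natural density or at most `K_B N / (log N)^B` elements up to `N`, for every `B`.
-/

open Filter

namespace Pool.Agent.Results.MP_a4658c_nt.ZeroOrPositive

/-- The Kakutani map. -/
def C (n : ℕ) : ℕ := if 2 ∣ n then n / 2 else if 3 ∣ n then n / 3 else 5 * n + 1

theorem result (A : Set ℕ) (n₀ : ℕ) (hA : ∀ n > n₀, (n ∈ A ↔ C n ∈ A)) :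
    (∃ d : ℝ, 0 < d ∧ Tendsto (fun N : ℕ =>
      ({n : ℕ | 1 ≤ n ∧ n ≤ N ∧ n ∈ A}.ncard : ℝ) / N) atTop (nhds d)) ∨
    (∀ B : ℕ, ∃ K : ℝ, ∀ N : ℕ, 2 ≤ N →
      ({n : ℕ | 1 ≤ n ∧ n ≤ N ∧ n ∈ A}.ncard : ℝ) ≤ K * N / (Real.log N) ^ B) := by
  classical
  have hcard : ∀ N : ℕ, ({n : ℕ | 1 ≤ n ∧ n ≤ N ∧ n ∈ A}.ncard : ℝ) =
      (((Finset.Icc 1 N).filter (fun n => n ∈ A)).card : ℝ) := by
    intro N
    have h2 : {n : ℕ | 1 ≤ n ∧ n ≤ N ∧ n ∈ A}
        = ((Finset.Icc 1 N).filter (fun n => n ∈ A) : Set ℕ) := by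
      ext n; simp [and_assoc]
    rw [h2, Set.ncard_coe_finset]
  simp only [hcard]
  rcases K5.ID.dichotomy A n₀ hA with ⟨d, hd, h⟩ | h
  · refine Or.inl ⟨d, hd, ?_⟩
    convert h
  · refine Or.inr fun B => ?_
    obtain ⟨K, hK⟩ := h B
    refine ⟨|K|, fun N hN => ?_⟩
    have hN1 : 1 ≤ N := by omega
    have hN0 : (0 : ℝ) < N := by exact_mod_cast hN1
    have hl : 0 < Real.log N := Real.log_pos (by exact_mod_cast hN)
    have h1 := hK N hN1
    have h2 : K * N / (1 + Real.log N) ^ B ≤ |K| * N / (Real.log N) ^ B := by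
      have h3 : K * N / (1 + Real.log N) ^ B ≤ |K| * N / (1 + Real.log N) ^ B := by
        apply div_le_div_of_nonneg_right _ (by positivity)
        exact mul_le_mul_of_nonneg_right (le_abs_self K) hN0.le
      refine h3.trans ?_
      apply div_le_div_of_nonneg_left (by positivity) (by positivity)
      exact pow_le_pow_left₀ hl.le (by linarith) B
    refine le_trans ?_ h2
    convert h1

end Pool.Agent.Results.MP_a4658c_nt.ZeroOrPositive
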